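import Pool.Agent.V5helper33.PR.Two2

set_option autoImplicit false

/-!
# Few and many primes in ALL the intervals `(x, x + u)`, `0 < u ≤ C (log x) ^ 2`, at the same place

The earlier result RealIntervals on this problem (helper601) treats the number of primes in the ONE
interval `(x, x + (log x) ^ 2)`. Here all the lengths `0 < u ≤ C (log x) ^ 2` are treated at the
same `x`, for every constant `C`, with the same constants `e ^ γ / 2 = 0.8905…` and `1.07`.

In terms of consecutive primes: `X ^ (1 - η)` primes `p_i` are such that for ALL `j ≤ C log p_i` the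
mean of the first `j` gaps after `p_i` is at most `(log p_i) / κ`, for every `κ < 1.07`; and for
infinitely many `i` all these means are at least `(log p_i) / κ`, for every `κ > e ^ γ / 2`,
`1 / κ → 2 e ^ (-γ) = 1.1229…`.

Proof. Windows of length `c (log n) ^ 2` with few or many primes (Maier's matrix method, helper510)
with `c` large in comparison with `C`, and tiling. helper33.
-/

open MeasureTheory Filter

namespace Pool.Agent.Results.MP_45ff98_nt.AllLengths

/-- the number of primes `p` with `a < p < b` -/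
noncomputable def primesIn (a b : ℝ) : ℕ := {p : ℕ | p.Prime ∧ a < p ∧ (p : ℝ) < b}.ncard

/-- the number of primes `p` with `a ≤ p < b` -/
noncomputable def primesFrom (a b : ℝ) : ℕ := {p : ℕ | p.Prime ∧ a ≤ p ∧ (p : ℝ) < b}.ncard

/-- the `i`-th prime, numbered from `p 0 = 2` -/
noncomputable def p (i : ℕ) : ℕ := Nat.nth Nat.Prime i

/-- **Theorem.** Let `C > 0` and `η > 0`.

(1) For `κ > e ^ γ / 2` and all large `X` the real `x ∈ (8, X]` such that for ALL real
`0 < u ≤ C (log x) ^ 2` the interval `(x, x + u)` contains at most `κ u / log x` primes form a set of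
(outer) measure at least `X ^ (1 - η)`.

(2) For `0 < κ < 1.07` and all large `N` there are at least `N ^ (1 - η)` primes `q ≤ N` such that
for ALL real `0 < u ≤ C (log q) ^ 2` the interval `[q, q + u)` contains at least `κ u / log q` primes.

(3) For `0 < κ < 1.07` and all large `N` there are at least `N ^ (1 - η)` indices `i` with `p_i ≤ N`
such that `κ (p_{i+j} - p_i) ≤ j log p_i` for ALL `1 ≤ j ≤ C log p_i`.

(4) For `κ > e ^ γ / 2` there are infinitely many `i` such that `κ (p_{i+j} - p_i) ≥ j log p_i` for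
ALL `1 ≤ j ≤ C log p_i`. -/
theorem result : ∀ C : ℝ, 0 < C →
    (∀ κ η : ℝ, Real.exp Real.eulerMascheroniConstant / 2 < κ → 0 < η →
      ∃ X₀ : ℝ, ∀ X : ℝ, X₀ ≤ X → ENNReal.ofReal (X ^ (1 - η)) ≤
        volume {x : ℝ | 8 < x ∧ x ≤ X ∧ ∀ u : ℝ, 0 < u → u ≤ C * Real.log x ^ 2 →
          (primesIn x (x + u) : ℝ) ≤ κ * (u / Real.log x)}) ∧
    (∀ κ η : ℝ, 0 < κ → κ < 1.07 → 0 < η → ∀ᶠ N : ℕ in atTop, (N : ℝ) ^ (1 - η) ≤
      ({q : ℕ | q.Prime ∧ q ≤ N ∧ ∀ u : ℝ, 0 < u → u ≤ C * Real.log q ^ 2 →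
        κ * (u / Real.log q) ≤ (primesFrom q (q + u) : ℝ)}.ncard : ℝ)) ∧
    (∀ κ η : ℝ, 0 < κ → κ < 1.07 → 0 < η → ∀ᶠ N : ℕ in atTop, (N : ℝ) ^ (1 - η) ≤
      ({i : ℕ | p i ≤ N ∧ ∀ j : ℕ, 1 ≤ j → (j : ℝ) ≤ C * Real.log (p i) →
        κ * ((p (i + j) : ℝ) - p i) ≤ j * Real.log (p i)}.ncard : ℝ)) ∧
    (∀ κ : ℝ, Real.exp Real.eulerMascheroniConstant / 2 < κ →
      ∃ᶠ i : ℕ in atTop, ∀ j : ℕ, 1 ≤ j → (j : ℝ) ≤ C * Real.log (p i) →
        j * Real.log (p i) ≤ κ * ((p (i + j) : ℝ) - p i)) := by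
  intro C hC
  refine ⟨fun κ η h1 h2 => Pool.Agent.V5helper33.PR.few_real_all κ C η h1 hC h2,
    fun κ η h1 h2 h3 => ?_, fun κ η h1 h2 h3 => Pool.Agent.V5helper33.PR.runs_many κ C η h1 h2 hC h3,
    fun κ h1 => Pool.Agent.V5helper33.PR.runs_few κ C h1 hC⟩
  filter_upwards [Pool.Agent.V5helper33.PR.many_real_all κ C η h1 h2 hC h3] with N hN
  refine hN.trans (le_of_eq ?_)
  unfold primesFrom
  simp only [Nat.cast_le]

end Pool.Agent.Results.MP_45ff98_nt.AllLengths
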