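import Pool.Agent.V5helper42.LR.G

/-!
# Long runs of composite integers are frequent in every interval

For every `δ > 0` there are `c > 0` and `y₀` such that for all `y ≥ y₀`, all `L` from `16` up to `c` times Rankin's ratio
`log₂ y log₄ y / (log₃ y)²` and ALL real `x ≥ 0`, at least `y exp (-(log y)^(1 - c log log L / (L log L)))` of the integers
`n` in `(x, x + y]` are followed by a run of composite integers of length `L log y`, each of which has a prime factor
`p ≤ y^δ`.

Proof: residue class zero for the primes between `v` and `z = H^(1 - κ)`, `H = L log y`, greedy classes for the primes up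
to `v`, a bound for the smooth integers without loss of logarithms; the few uncovered positions are treated by an upper
bound sieve in the progression modulo the product of the primes up to `z`, so that at least half of the progression is left.
-/

set_option autoImplicit false

namespace Pool.Agent.Results.MP_45ff98_nt.FrequentLongRuns

open Finset

/-- the integers `n` in `(x, x + y]` such that every integer `m` in `(n, n + ℓ]` has a prime factor `p ≤ w` with `p < m`
(in particular there is no prime in `(n, n + ℓ]`) -/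
def Runs (x y ℓ w : ℝ) : Set ℕ :=
  {n : ℕ | x < n ∧ (n : ℝ) ≤ x + y ∧ ∀ m : ℕ, n < m → (m : ℝ) ≤ n + ℓ →
    ∃ p : ℕ, p.Prime ∧ (p : ℝ) ≤ w ∧ p ∣ m ∧ p < m}

open Classical in
theorem runs_subset (x y ℓ w : ℝ) (hx : 0 ≤ x) (hy : 0 ≤ y) (hℓ : 0 ≤ ℓ) (hw : 0 ≤ w) :
    ((Pool.Agent.V5helper42.LR.runs ⌊ℓ⌋₊ ⌊w⌋₊ ⌊x⌋₊ ⌊y⌋₊ : Finset ℕ) : Set ℕ) ⊆ Runs x y ℓ w := by
  intro n hn
  unfold Pool.Agent.V5helper42.LR.runs at hn
  rw [Finset.mem_coe, mem_filter, mem_Ioc] at hn
  obtain ⟨⟨h1, h2⟩, h3⟩ := hn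
  refine ⟨(Nat.floor_lt hx).1 h1, ?_, ?_⟩
  · have h4 : (n : ℝ) ≤ (⌊x⌋₊ : ℝ) + ⌊y⌋₊ := by exact_mod_cast h2
    have h5 := Nat.floor_le hx
    have h6 := Nat.floor_le hy
    linarith
  · intro m hm1 hm2
    have hmn : n + (m - n) = m := by omega
    have h4 : m - n ≤ ⌊ℓ⌋₊ := by
      apply Nat.le_floor
      rw [Nat.cast_sub hm1.le]
      linarith
    obtain ⟨p, hp1, hp2, hp3, hp4⟩ := h3 (m - n) (mem_Icc.2 ⟨by omega, h4⟩)
    rw [hmn] at hp3 hp4
    exact ⟨p, hp1, (Nat.le_floor_iff hw).1 hp2, hp3, hp4⟩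

theorem runs_finite (x y ℓ w : ℝ) : (Runs x y ℓ w).Finite := by
  apply (Set.finite_Iic ⌊x + y⌋₊).subset
  intro n hn
  exact Nat.le_floor hn.2.1

/-- **Frequent long runs of composite integers in every interval.** For every `δ > 0` there are `c > 0` and `y₀` such that
for all `y ≥ y₀`, `16 ≤ L ≤ c log₂ y log₄ y / (log₃ y)²` and `x ≥ 0` at least
`y exp (-(log y)^(1 - c log log L / (L log L)))` integers `n` in `(x, x + y]` are such that every integer `m` in
`(n, n + L log y]` has a prime factor `p ≤ y^δ`, `p < m`. -/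
theorem result (δ : ℝ) (hδ : 0 < δ) : ∃ c y₀ : ℝ, 0 < c ∧ ∀ y : ℝ, y₀ ≤ y → ∀ L : ℝ, 16 ≤ L →
    L ≤ c * (Real.log (Real.log y) * Real.log (Real.log (Real.log (Real.log y))) /
      Real.log (Real.log (Real.log y)) ^ 2) → ∀ x : ℝ, 0 ≤ x →
    y * Real.exp (-(Real.log y) ^ (1 - c * (Real.log (Real.log L) / (L * Real.log L)))) ≤
      ((Runs x y (L * Real.log y) (y ^ δ)).ncard : ℝ) := by
  obtain ⟨c, y₀, hc, h⟩ := Pool.Agent.V5helper42.LR.main δ hδ
  refine ⟨c, max y₀ 1, hc, fun y hy L hL hL2 x hx => ?_⟩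
  have hy0 : (0 : ℝ) ≤ y := le_trans zero_le_one ((le_max_right _ _).trans hy)
  obtain ⟨h1, h2⟩ := h y ((le_max_left _ _).trans hy)
  refine (h2 L hL hL2 ⌊x⌋₊).trans ?_
  have h3 := Set.ncard_le_ncard (runs_subset x y (L * Real.log y) (y ^ δ) hx hy0
    (mul_nonneg (by linarith) (by linarith)) (Real.rpow_nonneg hy0 δ)) (runs_finite _ _ _ _)
  rw [Set.ncard_coe_finset] at h3
  exact_mod_cast h3

end Pool.Agent.Results.MP_45ff98_nt.FrequentLongRuns
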