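import Pool.Agent.V5helper26.RP.Dio

set_option autoImplicit false

/-!
# Record prime gaps around real polynomials and nonintegral powers of one prime number

Let `f(Z) = log Z (log₂ Z)² log₄ Z / (log₃ Z)²` (the starting library's own record function).

(1) Uniform statement. Let `f₁, …, f_r` be smoothly varying functions whose indices `c_j` are real
numbers except `0, 1, 2, …`, let the `c_j + u_j` be positive and distinct, `b` prime to `d`,
`0 < ε ≤ 1/2`, `r + s ≥ 1`. There are `κ, δ > 0` such that for all large `Z`, for ALL real `α_j` with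
`Z ^ (u_j - δ) ≤ |α_j| ≤ Z ^ (u_j + δ)`, ALL real polynomials `P_j` of degree `≤ D` and ALL real
polynomials `Q₁, …, Q_s` such that every nonzero integral combination `∑ h_i Q_i`, `|h_i| ≤ Z ^ ε`, has
a degree `k` between `1` and `D` and a leading coefficient at distance at least `Z ^ (ε - k)` from the
integers, and such that all the values are at least `Z ^ ε` on `(Z, (1 + ε) Z]`: at least
`Z ^ (1 - ε)` primes `p ≡ b (mod d)` of `(Z, (1 + ε) Z]` are such that no prime is at distance at most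
`κ f(Z)` from any of the numbers `α_j f_j(p) + P_j(p)`, `Q_i(p)`.

(2) Fixed functions. `α_j t ^ (c_j) + P_j(t)` tending to infinity, with distinct positive nonintegral
`c_j`, and real polynomials `Q_i` of distinct positive degrees whose leading coefficients are positive
irrational numbers which are not Liouville numbers (for instance algebraic): so there are record gaps
around `√2 p`, `√3 p²`, `∛2 p³ + π p` and `p ^ (5/2)` at the same time, for more than `Z ^ (1 - ρ)`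
primes `p` of `(Z, (1 + ρ) Z]`.

(3) The same for one polynomial with ANY irrational leading coefficient, for infinitely many scales.
-/

namespace Pool.Agent.Results.MP_45ff98_nt.PolynomialsOfPrimes

open Finset Filter Topology

/-- the record function `log x (log₂ x)² log₄ x / (log₃ x)²` -/
noncomputable def R (x : ℝ) : ℝ :=
  Real.log x * (Real.log (Real.log x)) ^ 2 * Real.log (Real.log (Real.log (Real.log x))) /
    (Real.log (Real.log (Real.log x))) ^ 2

/-- `f` is smoothly varying with index `c`: it is positive and has derivatives of every order near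
infinity, and `t ^ j f⁽ʲ⁾(t) / f(t)` tends to `c (c - 1) ⋯ (c - j + 1)` for every `j`. -/
def SmoothlyVarying (c : ℝ) (f : ℝ → ℝ) : Prop :=
  (∀ᶠ t in atTop, 0 < f t) ∧
  (∀ j : ℕ, ∀ᶠ t in atTop, DifferentiableAt ℝ (iteratedDeriv j f) t) ∧
  ∀ j : ℕ, Tendsto (fun t => t ^ j * iteratedDeriv j f t / f t) atTop
    (𝓝 (∏ i ∈ range j, (c - i)))

/-- no prime is at distance at most `d` from `x` -/
def PrimeFreeAround (x d : ℝ) : Prop := ∀ q : ℕ, q.Prime → d < |(q : ℝ) - x|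

/-- every nonzero combination `∑ h_i Q_i` with integers `|h_i| ≤ Z ^ ε` has a degree `k` between `1`
and `D`, and its leading coefficient is at distance at least `Z ^ (ε - k)` from the integers -/
def Spaced (ε Z : ℝ) (D : ℕ) {s : ℕ} (Q : Fin s → Polynomial ℝ) : Prop :=
  ∀ h : Fin s → ℤ, h ≠ 0 → (∀ i, |(h i : ℝ)| ≤ Z ^ ε) →
    1 ≤ (∑ i, Polynomial.C (h i : ℝ) * Q i).natDegree ∧
    (∑ i, Polynomial.C (h i : ℝ) * Q i).natDegree ≤ D ∧
    ∀ m : ℤ, Z ^ (ε - (∑ i, Polynomial.C (h i : ℝ) * Q i).natDegree) ≤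
      |(∑ i, Polynomial.C (h i : ℝ) * Q i).leadingCoeff - m|

/-- `α t ^ c + P(t) → ∞`, `c` positive and not an integer: a power of `t` as a lower bound -/
lemma size_power {c α : ℝ} {P : Polynomial ℝ} (hc : 0 < c) (hcn : ∀ n : ℕ, c ≠ n) (hα : α ≠ 0)
    (h : Tendsto (fun t : ℝ => α * t ^ c + P.eval t) atTop atTop) :
    ∃ ε₀ : ℝ, 0 < ε₀ ∧ ∀ᶠ t : ℝ in atTop, t ^ ε₀ ≤ α * t ^ c + P.eval t := by
  -- the quotient by the dominant power
  have hmon : ∀ x y : ℝ, x < y → Tendsto (fun t : ℝ => t ^ x / t ^ y) atTop (𝓝 0) := by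
    intro x y hxy
    refine (tendsto_rpow_neg_atTop (show 0 < y - x by linarith)).congr' ?_
    filter_upwards [eventually_gt_atTop 0] with t ht
    rw [← Real.rpow_sub ht]
    congr 1
    ring
  have hPn : Tendsto (fun t : ℝ => P.eval t / t ^ (P.natDegree : ℝ)) atTop (𝓝 P.leadingCoeff) := by
    have h1 := P.isEquivalent_atTop_lead
    by_cases hP : P = 0
    · subst hP
      simp
    · have hlc : P.leadingCoeff ≠ 0 := Polynomial.leadingCoeff_ne_zero.mpr hP
      have h2 : ∀ᶠ t : ℝ in atTop, P.leadingCoeff * t ^ P.natDegree ≠ 0 := by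
        filter_upwards [eventually_gt_atTop 0] with t ht
        positivity
      have h3 := ((Asymptotics.isEquivalent_iff_tendsto_one h2).mp h1).const_mul P.leadingCoeff
      rw [mul_one] at h3
      refine h3.congr' ?_
      filter_upwards [eventually_gt_atTop 0] with t ht
      rw [Pi.div_apply, Real.rpow_natCast]
      field_simp
  have hmain : ∀ x a : ℝ, 0 < x → a ≠ 0 →
      Tendsto (fun t : ℝ => (α * t ^ c + P.eval t) / t ^ x) atTop (𝓝 a) →
      ∃ ε₀ : ℝ, 0 < ε₀ ∧ ∀ᶠ t : ℝ in atTop, t ^ ε₀ ≤ α * t ^ c + P.eval t := by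
    intro x a hx ha hlim
    have ha0 : 0 < a := by
      rcases lt_or_gt_of_ne ha with h1 | h1
      · exfalso
        have h2 := hlim.eventually_lt_const h1
        obtain ⟨t, h3, h4, h5⟩ := (h2.and ((h.eventually_gt_atTop 0).and
          (eventually_gt_atTop 0))).exists
        have h6 : 0 < t ^ x := Real.rpow_pos_of_pos h5 x
        have h7 := div_pos h4 h6
        linarith
      · exact h1
    refine ⟨x / 2, by positivity, ?_⟩
    filter_upwards [hlim.eventually_const_lt (show a / 2 < a by linarith),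
      (tendsto_rpow_atTop (show 0 < x / 2 by positivity)).eventually_ge_atTop (2 / a),
      eventually_gt_atTop 0] with t h1 h2 h3
    have h4 : 0 < t ^ x := Real.rpow_pos_of_pos h3 x
    rw [lt_div_iff₀ h4] at h1
    have h5 : t ^ x = t ^ (x / 2) * t ^ (x / 2) := by
      rw [← Real.rpow_add h3]
      congr 1
      ring
    have h6 : 0 < t ^ (x / 2) := Real.rpow_pos_of_pos h3 _
    have h7 : 1 ≤ a / 2 * t ^ (x / 2) := by
      have := mul_le_mul_of_nonneg_left h2 (show 0 ≤ a / 2 by positivity)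
      calc (1 : ℝ) = a / 2 * (2 / a) := by field_simp
        _ ≤ _ := this
    calc t ^ (x / 2) ≤ (a / 2 * t ^ (x / 2)) * t ^ (x / 2) := le_mul_of_one_le_left h6.le h7
      _ = a / 2 * t ^ x := by rw [h5]; ring
      _ ≤ _ := h1.le
  rcases lt_or_gt_of_ne (hcn P.natDegree) with h1 | h1
  · -- the polynomial dominates
    have hP0 : P.leadingCoeff ≠ 0 := by
      intro h2
      rw [Polynomial.leadingCoeff_eq_zero] at h2
      subst h2
      simp at h1
      linarith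
    refine hmain P.natDegree P.leadingCoeff (by linarith) hP0 ?_
    have h2 := ((hmon c P.natDegree h1).const_mul α).add hPn
    rw [mul_zero, zero_add] at h2
    refine h2.congr fun t => ?_
    ring
  · refine hmain c α hc hα ?_
    have h2 := (hPn.mul (hmon P.natDegree c h1)).const_add α
    rw [mul_zero, add_zero] at h2
    refine h2.congr' ?_
    filter_upwards [eventually_gt_atTop 0] with t ht
    have h3 : 0 < t ^ c := Real.rpow_pos_of_pos ht c
    have h4 : 0 < t ^ (P.natDegree : ℝ) := Real.rpow_pos_of_pos ht _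
    field_simp

/-- a polynomial of positive degree -/
lemma size_poly {Q : Polynomial ℝ} (hdeg : 1 ≤ Q.natDegree) (hlc : 0 < Q.leadingCoeff) :
    ∀ᶠ t : ℝ in atTop, t ^ (1 / 2 : ℝ) ≤ Q.eval t := by
  have h1 := Q.isEquivalent_atTop_lead
  have h2 : ∀ᶠ t : ℝ in atTop, Q.leadingCoeff * t ^ Q.natDegree ≠ 0 := by
    filter_upwards [eventually_gt_atTop 0] with t ht
    positivity
  have h3 := (Asymptotics.isEquivalent_iff_tendsto_one h2).mp h1
  filter_upwards [h3.eventually_const_lt (show (1 / 2 : ℝ) < 1 by norm_num),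
    eventually_ge_atTop (1 : ℝ), (tendsto_rpow_atTop (show (0 : ℝ) < 1 / 2 by norm_num)).eventually_ge_atTop
      (2 / Q.leadingCoeff)] with t h4 h5 h6
  rw [Pi.div_apply, lt_div_iff₀ (by positivity)] at h4
  have h7 : t ≤ t ^ Q.natDegree := le_self_pow₀ h5 (by omega)
  have h8 : t = t ^ (1 / 2 : ℝ) * t ^ (1 / 2 : ℝ) := by
    rw [← Real.rpow_add (by linarith)]
    norm_num
  have h9 : 1 ≤ 1 / 2 * Q.leadingCoeff * t ^ (1 / 2 : ℝ) := by
    have := mul_le_mul_of_nonneg_left h6 (show 0 ≤ 1 / 2 * Q.leadingCoeff by positivity)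
    calc (1 : ℝ) = 1 / 2 * Q.leadingCoeff * (2 / Q.leadingCoeff) := by field_simp
      _ ≤ _ := this
  calc t ^ (1 / 2 : ℝ) ≤ (1 / 2 * Q.leadingCoeff * t ^ (1 / 2 : ℝ)) * t ^ (1 / 2 : ℝ) :=
        le_mul_of_one_le_left (by positivity) h9
    _ = 1 / 2 * (Q.leadingCoeff * (t ^ (1 / 2 : ℝ) * t ^ (1 / 2 : ℝ))) := by ring
    _ = 1 / 2 * (Q.leadingCoeff * t) := by rw [← h8]
    _ ≤ 1 / 2 * (Q.leadingCoeff * t ^ Q.natDegree) := by gcongr
    _ ≤ _ := h4.le

lemma smooth_rpow (c : ℝ) :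
    Pool.Agent.N542.PP.SV c (fun k t => (∏ i ∈ range k, (c - i)) * t ^ (c - k)) := by
  refine ⟨?_, ?_, ?_⟩
  · filter_upwards [eventually_gt_atTop 0] with t ht
    simp only [range_zero, prod_empty, one_mul, Nat.cast_zero, sub_zero]
    positivity
  · intro k
    filter_upwards [eventually_gt_atTop 0] with t ht
    have h := (Real.hasDerivAt_rpow_const (x := t) (p := c - k) (Or.inl ht.ne')).const_mul
      (∏ i ∈ range k, (c - i))
    refine h.congr_deriv ?_
    rw [prod_range_succ]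
    push_cast
    rw [show c - (k : ℝ) - 1 = c - (k + 1) by ring]
    ring
  · intro k
    rw [Pool.Agent.N542.PP.fall]
    refine tendsto_const_nhds.congr' ?_
    filter_upwards [eventually_gt_atTop 0] with t ht
    simp only [range_zero, prod_empty, one_mul, Nat.cast_zero, sub_zero]
    have h1 : t ^ k * t ^ (c - k) = t ^ c := by
      rw [← Real.rpow_natCast, ← Real.rpow_add ht]
      congr 1
      ring
    have h2 : 0 < t ^ c := Real.rpow_pos_of_pos ht c
    rw [show t ^ k * ((∏ i ∈ range k, (c - (i : ℝ))) * t ^ (c - (k : ℝ))) =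
      (∏ i ∈ range k, (c - (i : ℝ))) * (t ^ k * t ^ (c - (k : ℝ))) by ring, h1]
    field_simp

/-- The main theorem. -/
theorem result :
    (∀ (r s : ℕ), 1 ≤ r + s → ∀ (c u : Fin r → ℝ) (f : Fin r → ℝ → ℝ),
      (∀ j, ∀ n : ℕ, c j ≠ n) → (∀ j, SmoothlyVarying (c j) (f j)) → (∀ j, 0 < c j + u j) →
      Function.Injective (fun j => c j + u j) →
      ∀ (D d b : ℕ), 0 < d → b.Coprime d → ∀ ε : ℝ, 0 < ε → ε ≤ 1 / 2 →
      ∃ κ δ : ℝ, 0 < κ ∧ 0 < δ ∧ ∀ᶠ Z : ℝ in atTop, ∀ (α : Fin r → ℝ) (P : Fin r → Polynomial ℝ)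
        (Q : Fin s → Polynomial ℝ),
        (∀ j, Z ^ (u j - δ) ≤ |α j| ∧ |α j| ≤ Z ^ (u j + δ)) → (∀ j, (P j).natDegree ≤ D) →
        Spaced ε Z D Q →
        (∀ j, ∀ n : ℕ, Z < n → (n : ℝ) ≤ (1 + ε) * Z → Z ^ ε ≤ α j * f j n + (P j).eval (n : ℝ)) →
        (∀ i, ∀ n : ℕ, Z < n → (n : ℝ) ≤ (1 + ε) * Z → Z ^ ε ≤ (Q i).eval (n : ℝ)) →
        ∃ G : Finset ℕ, Z ^ (1 - ε) ≤ (G.card : ℝ) ∧ ∀ p ∈ G, p.Prime ∧ p ≡ b [MOD d] ∧
          Z < p ∧ (p : ℝ) ≤ (1 + ε) * Z ∧
          (∀ j, PrimeFreeAround (α j * f j p + (P j).eval (p : ℝ)) (κ * R Z)) ∧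
          (∀ i, PrimeFreeAround ((Q i).eval (p : ℝ)) (κ * R Z))) ∧
    (∀ (r s : ℕ), 1 ≤ r + s → ∀ (c α : Fin r → ℝ) (P : Fin r → Polynomial ℝ)
      (Q : Fin s → Polynomial ℝ),
      (∀ j, 0 < c j) → (∀ j, ∀ n : ℕ, c j ≠ n) → Function.Injective c → (∀ j, α j ≠ 0) →
      (∀ j, Tendsto (fun t : ℝ => α j * t ^ c j + (P j).eval t) atTop atTop) →
      (∀ i, 1 ≤ (Q i).natDegree) → Function.Injective (fun i => (Q i).natDegree) →
      (∀ i, 0 < (Q i).leadingCoeff ∧ Irrational (Q i).leadingCoeff ∧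
        ¬ Liouville (Q i).leadingCoeff) →
      ∀ (d b : ℕ), 0 < d → b.Coprime d → ∀ ρ : ℝ, 0 < ρ → ∃ κ : ℝ, 0 < κ ∧
      ∀ᶠ Z : ℝ in atTop, ∃ G : Finset ℕ, Z ^ (1 - ρ) ≤ (G.card : ℝ) ∧ ∀ p ∈ G, p.Prime ∧
        p ≡ b [MOD d] ∧ Z < p ∧ (p : ℝ) ≤ (1 + ρ) * Z ∧
        (∀ j, PrimeFreeAround (α j * (p : ℝ) ^ c j + (P j).eval (p : ℝ)) (κ * R Z)) ∧
        (∀ i, PrimeFreeAround ((Q i).eval (p : ℝ)) (κ * R Z))) ∧
    (∀ (r : ℕ) (c α : Fin r → ℝ) (P : Fin r → Polynomial ℝ) (Q : Polynomial ℝ),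
      (∀ j, 0 < c j) → (∀ j, ∀ n : ℕ, c j ≠ n) → Function.Injective c → (∀ j, α j ≠ 0) →
      (∀ j, Tendsto (fun t : ℝ => α j * t ^ c j + (P j).eval t) atTop atTop) →
      1 ≤ Q.natDegree → 0 < Q.leadingCoeff → Irrational Q.leadingCoeff →
      ∀ (d b : ℕ), 0 < d → b.Coprime d → ∀ ρ : ℝ, 0 < ρ → ∃ κ : ℝ, 0 < κ ∧
      ∃ᶠ Z : ℝ in atTop, ∃ G : Finset ℕ, Z ^ (1 - ρ) ≤ (G.card : ℝ) ∧ ∀ p ∈ G, p.Prime ∧
        p ≡ b [MOD d] ∧ Z < p ∧ (p : ℝ) ≤ (1 + ρ) * Z ∧
        (∀ j, PrimeFreeAround (α j * (p : ℝ) ^ c j + (P j).eval (p : ℝ)) (κ * R Z)) ∧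
        PrimeFreeAround (Q.eval (p : ℝ)) (κ * R Z)) := by
  -- the fixed version
  have hfix : ∀ (r s : ℕ), 1 ≤ r + s → ∀ (c α : Fin r → ℝ) (P : Fin r → Polynomial ℝ)
      (Q : Fin s → Polynomial ℝ),
      (∀ j, 0 < c j) → (∀ j, ∀ n : ℕ, c j ≠ n) → Function.Injective c → (∀ j, α j ≠ 0) →
      (∀ j, Tendsto (fun t : ℝ => α j * t ^ c j + (P j).eval t) atTop atTop) →
      (∀ i, 1 ≤ (Q i).natDegree) → (∀ i, 0 < (Q i).leadingCoeff) →
      ∀ (D d b : ℕ), 0 < d → b.Coprime d → (∀ j, (P j).natDegree ≤ D) → ∀ ρ : ℝ, 0 < ρ →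
      ∃ ε₁ : ℝ, 0 < ε₁ ∧ ∀ ε : ℝ, 0 < ε → ε ≤ ε₁ → ∃ κ : ℝ, 0 < κ ∧
      ∀ᶠ Z : ℝ in atTop, Spaced ε Z D Q → ∃ G : Finset ℕ, Z ^ (1 - ρ) ≤ (G.card : ℝ) ∧
        ∀ p ∈ G, p.Prime ∧ p ≡ b [MOD d] ∧ Z < p ∧ (p : ℝ) ≤ (1 + ρ) * Z ∧
        (∀ j, PrimeFreeAround (α j * (p : ℝ) ^ c j + (P j).eval (p : ℝ)) (κ * R Z)) ∧
        (∀ i, PrimeFreeAround ((Q i).eval (p : ℝ)) (κ * R Z)) := by
    intro r s hrs c α P Q hc hcn hinj hα htend hdeg hlc D d b hd hb hPD ρ hρ
    have h1 : ∀ j, ∃ ε₀ : ℝ, 0 < ε₀ ∧ ∀ᶠ t : ℝ in atTop, t ^ ε₀ ≤ α j * t ^ c j + (P j).eval t :=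
      fun j => size_power (hc j) (hcn j) (hα j) (htend j)
    choose e0 he0 hsz using h1
    have h2 : ∃ ε₂ : ℝ, 0 < ε₂ ∧ ∀ j, ε₂ ≤ e0 j := by
      rcases Nat.eq_zero_or_pos r with hr | hr
      · subst hr
        exact ⟨1, one_pos, fun j => Fin.elim0 j⟩
      · have : Nonempty (Fin r) := ⟨⟨0, hr⟩⟩
        obtain ⟨j0, _, hj0⟩ := Finset.exists_min_image (univ : Finset (Fin r)) e0 univ_nonempty
        exact ⟨e0 j0, he0 j0, fun j => hj0 j (mem_univ j)⟩
    obtain ⟨ε₂, hε2, hε2'⟩ := h2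
    refine ⟨min (min ε₂ (1 / 2)) ρ, lt_min (lt_min hε2 (by norm_num)) hρ, ?_⟩
    intro ε hε hε1
    have hεa : ε ≤ ε₂ := hε1.trans ((min_le_left _ _).trans (min_le_left _ _))
    have hεb : ε ≤ 1 / 2 := hε1.trans ((min_le_left _ _).trans (min_le_right _ _))
    have hεc : ε ≤ ρ := hε1.trans (min_le_right _ _)
    obtain ⟨κ, δ, hκ, hδ, hjoint⟩ := Pool.Agent.V5helper26.RP.joint hrs c (fun _ => 0)
      (fun j k t => (∏ i ∈ range k, (c j - i)) * t ^ (c j - k)) (fun j => smooth_rpow (c j)) hcn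
      (fun j => by simpa using hc j) (by simpa using hinj) D d b hd hb ε hε hεb
    refine ⟨κ, hκ, ?_⟩
    have hα1 : ∀ᶠ Z : ℝ in atTop, ∀ j, Z ^ ((0 : ℝ) - δ) ≤ |α j| ∧ |α j| ≤ Z ^ ((0 : ℝ) + δ) := by
      rw [Filter.eventually_all]
      intro j
      have h3 : 0 < |α j| := abs_pos.mpr (hα j)
      rw [zero_sub, zero_add]
      filter_upwards [(tendsto_rpow_neg_atTop hδ).eventually_le_const h3,
        (tendsto_rpow_atTop hδ).eventually_ge_atTop |α j|] with Z h4 h5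
      exact ⟨h4, h5⟩
    have hs1 : ∀ᶠ Z : ℝ in atTop, ∀ j, ∀ t : ℝ, Z ≤ t → t ^ e0 j ≤ α j * t ^ c j + (P j).eval t := by
      rw [Filter.eventually_all]
      intro j
      exact eventually_forall_ge_atTop.mpr (hsz j)
    have hs2 : ∀ᶠ Z : ℝ in atTop, ∀ i, ∀ t : ℝ, Z ≤ t → t ^ (1 / 2 : ℝ) ≤ (Q i).eval t := by
      rw [Filter.eventually_all]
      intro i
      exact eventually_forall_ge_atTop.mpr (size_poly (hdeg i) (hlc i))
    filter_upwards [hjoint, hα1, hs1, hs2, eventually_ge_atTop (1 : ℝ)] with Z hJ hA hS1 hS2 hZ1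
    intro hsp
    have hZ0 : 0 < Z := by linarith
    obtain ⟨G, hG, hGp⟩ := hJ α P Q hA hPD hsp (by
      intro j n hn _
      have h3 := hS1 j n hn.le
      simp only [range_zero, prod_empty, one_mul, Nat.cast_zero, sub_zero]
      refine le_trans ?_ h3
      calc Z ^ ε ≤ Z ^ e0 j := Real.rpow_le_rpow_of_exponent_le hZ1 (hεa.trans (hε2' j))
        _ ≤ (n : ℝ) ^ e0 j := Real.rpow_le_rpow hZ0.le hn.le (he0 j).le) (by
      intro i n hn _
      refine le_trans ?_ (hS2 i n hn.le)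
      calc Z ^ ε ≤ Z ^ (1 / 2 : ℝ) := Real.rpow_le_rpow_of_exponent_le hZ1 hεb
        _ ≤ (n : ℝ) ^ (1 / 2 : ℝ) := Real.rpow_le_rpow hZ0.le hn.le (by norm_num))
    refine ⟨G, le_trans (Real.rpow_le_rpow_of_exponent_le hZ1 (by linarith)) hG, ?_⟩
    intro p hp
    obtain ⟨h3, h4, h5, h6, h7, h8⟩ := hGp p hp
    refine ⟨h3, h4, h5, h6.trans (mul_le_mul_of_nonneg_right (by linarith) hZ0.le), ?_, ?_⟩
    · intro j q hq
      have h9 := h7 j q hq
      simp only [range_zero, prod_empty, one_mul, Nat.cast_zero, sub_zero] at h9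
      exact h9
    · intro i q hq
      exact h8 i q hq
  refine ⟨?_, ?_, ?_⟩
  · intro r s hrs c u f hcn hf hv hinj D d b hd hb ε hε hε1
    have hSV : ∀ j, Pool.Agent.N542.PP.SV (c j) (fun k => iteratedDeriv k (f j)) := by
      intro j
      refine ⟨?_, ?_, ?_⟩
      · simpa only [iteratedDeriv_zero] using (hf j).1
      · intro k
        filter_upwards [(hf j).2.1 k] with t ht
        rw [iteratedDeriv_succ]
        exact ht.hasDerivAt
      · intro k
        have h1 := (hf j).2.2 k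
        rw [Pool.Agent.N542.PP.fall]
        simpa only [iteratedDeriv_zero] using h1
    have h := Pool.Agent.V5helper26.RP.joint hrs c u (fun j k => iteratedDeriv k (f j)) hSV hcn hv
      hinj D d b hd hb ε hε hε1
    simp only [iteratedDeriv_zero] at h
    exact h
  · intro r s hrs c α P Q hc hcn hinj hα htend hdeg hdinj hlc d b hd hb ρ hρ
    set D : ℕ := (∑ j, (P j).natDegree) + ∑ i, (Q i).natDegree with hD
    have hPD : ∀ j, (P j).natDegree ≤ D := fun j => by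
      have := Finset.single_le_sum (f := fun j => (P j).natDegree) (fun _ _ => Nat.zero_le _)
        (mem_univ j)
      omega
    have hQD : ∀ i, (Q i).natDegree ≤ D := fun i => by
      have := Finset.single_le_sum (f := fun i => (Q i).natDegree) (fun _ _ => Nat.zero_le _)
        (mem_univ i)
      omega
    obtain ⟨ε₀, hε0, hev⟩ := (Pool.Agent.V5helper26.RP.diophantine_of_degrees hdeg hdinj
      (fun i => (hlc i).2.1) (fun i => (hlc i).2.2)).ev hQD
    obtain ⟨ε₁, hε1, hfx⟩ := hfix r s hrs c α P Q hc hcn hinj hα htend hdeg (fun i => (hlc i).1)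
      D d b hd hb hPD ρ hρ
    obtain ⟨κ, hκ, hfin⟩ := hfx (min ε₀ ε₁) (lt_min hε0 hε1) (min_le_right _ _)
    refine ⟨κ, hκ, ?_⟩
    filter_upwards [hfin, hev (min ε₀ ε₁) (lt_min hε0 hε1) (min_le_left _ _)] with Z h1 h2
    exact h1 h2
  · intro r c α P Q hc hcn hinj hα htend hdeg hlc hirr d b hd hb ρ hρ
    set D : ℕ := (∑ j, (P j).natDegree) + Q.natDegree with hD
    have hPD : ∀ j, (P j).natDegree ≤ D := fun j => by
      have := Finset.single_le_sum (f := fun j => (P j).natDegree) (fun _ _ => Nat.zero_le _)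
        (mem_univ j)
      omega
    obtain ⟨ε₁, hε1, hfx⟩ := hfix r 1 (by omega) c α P (fun _ => Q) hc hcn hinj hα htend
      (fun _ => hdeg) (fun _ => hlc) D d b hd hb hPD ρ hρ
    set ε : ℝ := min ε₁ (1 / 4) with hεdef
    have hε : 0 < ε := lt_min hε1 (by norm_num)
    obtain ⟨κ, hκ, hfin⟩ := hfx ε hε (min_le_left _ _)
    refine ⟨κ, hκ, ?_⟩
    refine ((Pool.Agent.V5helper26.RP.frequently_polyDio hdeg hirr hε
      (min_le_right _ _)).and_eventually hfin).mono ?_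
    rintro Z ⟨h1, h2⟩
    have h3 : Spaced ε Z D (fun _ : Fin 1 => Q) := by
      intro h hh hhb
      obtain ⟨h4, h5, h6⟩ := h1 h hh hhb
      exact ⟨h4, h5.trans (by omega), h6⟩
    obtain ⟨G, hG, hGp⟩ := h2 h3
    refine ⟨G, hG, ?_⟩
    intro p hp
    obtain ⟨h4, h5, h6, h7, h8, h9⟩ := hGp p hp
    exact ⟨h4, h5, h6, h7, h8, h9 0⟩

end Pool.Agent.Results.MP_45ff98_nt.PolynomialsOfPrimes
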