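import Pool.Agent.V5helper26.ML.Main

set_option autoImplicit false

/-!
# Record prime gaps around many products of the coordinates of one vector at the same time

Let `R(X) = log X (log₂ X)² log₄ X / (log₃ X)²` (the starting library's own record function), and let
`I₁, …, I_r` be DISTINCT subsets of `{1, …, k}` with at least two elements each; for instance all the
`2 ^ k - k - 1` of them. Let `J₁, …, J_N` be subsets of `{1, …, k}` none of which contains any `I_j`.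

(1) Uniform statement. Let `0 < ε ≤ 1`, `ρ > 0`. There is `κ > 0` such that for all large `X` the
following holds. Let `E` be the set of all the vectors `a` of `{1, …, X} ^ k` that satisfy ANY relations
`Rel_t`, where `Rel_t` involves the coordinates in `J_t` only (for instance a product set
`A₁ × ⋯ × A_k`; or, if all the `I_j` have three elements or more, the vectors with arbitrary relations
between their pairs of coordinates; or, if `r = 1` and `I₁ = {1, …, k}`, the `k`-cliques of an arbitrary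
`(k - 1)`-uniform hypergraph), with `|E| ≥ X ^ (k - ε / 2 ^ (k + 2))`. Let `α_j` be real numbers with
`|t α_j - p| ≥ X ^ (ε - |I_j|)` for all integers `p` and `1 ≤ t ≤ X ^ ε`, and let `u_{t j}` be ANY real
functions of the coordinates in `J_t`. If the numbers
`v_j(a) = α_j ∏_{i ∈ I_j} a_i + ∑_t u_{t j}(a)` are at least `X ^ ε` on `E`, then for at least
`|E| X ^ (-ρ)` vectors `a` of `E` no prime is at distance at most `κ R(X)` from any of the numbers
`v₁(a), …, v_r(a)`.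

(2) The same for fixed irrational numbers `α_j` that are not Liouville numbers (for instance algebraic),
`|E| ≥ X ^ (k - δ)` and values at least `X ^ σ`.

(3) Products. For fixed positive irrational non-Liouville `α_j` and ARBITRARY sets `A₁, …, A_k` of
positive integers up to `X` with `|A₁| ⋯ |A_k| ≥ X ^ (k - δ)`, at least `|A₁| ⋯ |A_k| X ^ (-ρ)` vectors
of `A₁ × ⋯ × A_k` are such that no prime is at distance at most `κ R(X)` from any of the numbers
`α_j ∏_{i ∈ I_j} a_i`.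

(4) The condition of (1) on `α` holds whenever `X ^ (2 ε - m) ≤ |α| ≤ X ^ (-2 ε)`.

Proof: take `j₀` with `h_{j₀} ≠ 0` and `|I_{j₀}|` maximal; every other factor of the exponential sum
misses one coordinate in `I_{j₀}`, so that the inequality of Cauchy and Schwarz, used `|I_{j₀}| - 1`
times, removes them all, and what remains is a sum over differences, estimated by the divisor bound and
the spacing of the multiples of `h α / q`. The covering sieve of the starting library, in the form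
`Y961.JR.crit_scaledJ`, does the rest.
-/

namespace Pool.Agent.Results.MP_45ff98_nt.ProductsOverSubsets

open Finset Filter Topology

/-- the record function `log x (log₂ x)² log₄ x / (log₃ x)²` -/
noncomputable def R (x : ℝ) : ℝ :=
  Real.log x * (Real.log (Real.log x)) ^ 2 * Real.log (Real.log (Real.log (Real.log x))) /
    (Real.log (Real.log (Real.log x))) ^ 2

/-- no prime is at distance at most `d` from `x` -/
def PrimeFreeAround (x d : ℝ) : Prop := ∀ q : ℕ, q.Prime → d < |(q : ℝ) - x|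

/-- `t α` is at distance at least `X ^ (ε - m)` from the integers for `1 ≤ t ≤ X ^ ε` -/
def Apart (ε : ℝ) (m X : ℕ) (α : ℝ) : Prop :=
  ∀ t : ℕ, 1 ≤ t → (t : ℝ) ≤ (X : ℝ) ^ ε → ∀ p : ℤ, (X : ℝ) ^ (ε - m) ≤ |t * α - p|

/-- `E` is the set of all the vectors of `{1, …, X} ^ k` that satisfy the relations `Rel t`, and
`Rel t` involves only the coordinates in `J t` -/
def GivenBy {k N : ℕ} (X : ℕ) (J : Fin N → Finset (Fin k)) (Rel : Fin N → (Fin k → ℕ) → Prop)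
    (E : Finset (Fin k → ℕ)) : Prop :=
  (∀ t, DependsOn (Rel t) (J t : Set (Fin k))) ∧
  ∀ a, a ∈ E ↔ (∀ i, 1 ≤ a i ∧ a i ≤ X) ∧ ∀ t, Rel t a

/-- the number `α ∏_{i ∈ I} a_i + ∑ u_t(a)` -/
noncomputable def val {k N : ℕ} (α : ℝ) (I : Finset (Fin k)) (u : Fin N → (Fin k → ℕ) → ℝ)
    (a : Fin k → ℕ) : ℝ :=
  α * ∏ i ∈ I, (a i : ℝ) + ∑ t, u t a

lemma small_apart (ε : ℝ) (hε : 0 < ε) (hε1 : ε ≤ 1) : ∀ᶠ X : ℕ in atTop, ∀ (m : ℕ) (α : ℝ),
    2 ≤ m → (X : ℝ) ^ (2 * ε - m) ≤ |α| → |α| ≤ (X : ℝ) ^ (-(2 * ε)) → Apart ε m X α := by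
  filter_upwards [Pool.Agent.V5helper26.ML.ev_const ε hε 2, eventually_ge_atTop 2] with X hX2 hX
  intro m α hm h1 h2 t ht htX p
  have hX1 : (1 : ℝ) ≤ X := by exact_mod_cast (by omega : 1 ≤ X)
  have hX0 : (0 : ℝ) < X := by linarith
  have hX2' : (2 : ℝ) ≤ X := by exact_mod_cast hX
  have ht1 : (1 : ℝ) ≤ t := by exact_mod_cast ht
  have hm' : (2 : ℝ) ≤ m := by exact_mod_cast hm
  have h3 : |(t : ℝ) * α| = t * |α| := by rw [abs_mul, abs_of_pos (by linarith)]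
  have h4 : (X : ℝ) ^ (-ε) ≤ 1 / 2 := by
    rw [Real.rpow_neg hX0.le, ← one_div]
    exact one_div_le_one_div_of_le (by norm_num) hX2
  rcases eq_or_ne p 0 with rfl | hp
  · rw [Int.cast_zero, sub_zero, h3]
    calc (X : ℝ) ^ (ε - m) ≤ (X : ℝ) ^ (2 * ε - m) :=
          Real.rpow_le_rpow_of_exponent_le hX1 (by linarith)
      _ ≤ |α| := h1
      _ ≤ t * |α| := le_mul_of_one_le_left (abs_nonneg _) ht1
  · have h5 : |(t : ℝ) * α| ≤ 1 / 2 := by
      rw [h3]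
      calc (t : ℝ) * |α| ≤ (X : ℝ) ^ ε * (X : ℝ) ^ (-(2 * ε)) :=
            mul_le_mul htX h2 (abs_nonneg _) (by positivity)
        _ = (X : ℝ) ^ (-ε) := by
            rw [← Real.rpow_add hX0]
            congr 1
            ring
        _ ≤ 1 / 2 := h4
    have h6 : (1 : ℝ) ≤ |(p : ℝ)| := by
      rw [← Int.cast_abs]
      exact_mod_cast Int.one_le_abs hp
    have h7 : |(p : ℝ)| ≤ |(t : ℝ) * α| + |(t : ℝ) * α - p| := by
      have := abs_sub_abs_le_abs_sub (p : ℝ) ((t : ℝ) * α)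
      rw [abs_sub_comm] at this
      linarith
    have h8 : (X : ℝ) ^ (ε - m) ≤ 1 / 2 := by
      calc (X : ℝ) ^ (ε - m) ≤ (X : ℝ) ^ (-1 : ℝ) :=
            Real.rpow_le_rpow_of_exponent_le hX1 (by linarith)
        _ ≤ 1 / 2 := by
            rw [Real.rpow_neg_one, ← one_div]
            exact one_div_le_one_div_of_le (by norm_num) hX2'
    linarith

/-- product sets -/
lemma product_sets {k r : ℕ} (hr : 1 ≤ r) (I : Fin r → Finset (Fin k)) (hI : Function.Injective I)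
    (h2 : ∀ j, 2 ≤ (I j).card) (α : Fin r → ℝ)
    (hα : ∀ j, 0 < α j ∧ Irrational (α j) ∧ ¬ Liouville (α j)) (ρ : ℝ) (hρ : 0 < ρ) :
    ∃ κ δ : ℝ, 0 < κ ∧ 0 < δ ∧ ∀ᶠ X : ℕ in atTop, ∀ A : Fin k → Finset ℕ,
      (∀ i, ∀ x ∈ A i, 1 ≤ x ∧ x ≤ X) → (X : ℝ) ^ ((k : ℝ) - δ) ≤ ∏ i, ((A i).card : ℝ) →
      ∃ S : Finset (Fin k → ℕ), (∀ a ∈ S, ∀ i, a i ∈ A i) ∧
        (∏ i, ((A i).card : ℝ)) * (X : ℝ) ^ (-ρ) ≤ S.card ∧
        ∀ a ∈ S, ∀ j, PrimeFreeAround (α j * ∏ i ∈ I j, (a i : ℝ)) (κ * R X) := by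
  classical
  obtain ⟨κ, δ, hκ, hδ, hfix⟩ := Pool.Agent.V5helper26.ML.fixed hr I hI h2 α (fun j => (hα j).2)
    (1 / 2) (ρ / 2) (by norm_num) (by positivity)
  obtain ⟨δ', hδ0, hδ1, hδ2⟩ : ∃ δ' : ℝ, 0 < δ' ∧ δ' ≤ δ / 2 ∧ δ' ≤ 1 / 4 :=
    ⟨min (δ / 2) (1 / 4), lt_min (by positivity) (by norm_num), min_le_left _ _, min_le_right _ _⟩
  refine ⟨κ, δ', hκ, hδ0, ?_⟩
  have hsz : ∀ᶠ X : ℕ in atTop, ∀ j, 1 / α j ≤ (X : ℝ) ^ (1 / 2 : ℝ) := by
    rw [Filter.eventually_all]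
    intro j
    exact Pool.Agent.V5helper26.ML.ev_const (1 / 2) (by norm_num) _
  filter_upwards [hfix, hsz, Pool.Agent.V5helper26.ML.ev_const (1 / 4) (by norm_num) 2,
    Pool.Agent.V5helper26.ML.ev_const (δ / 2) (by positivity) (2 ^ k),
    Pool.Agent.V5helper26.ML.ev_const (ρ / 2) (by positivity) (2 ^ k), eventually_ge_atTop 1]
    with X hF hS hX4 hXδ hXρ hX
  intro A hA hAc
  have hX1 : (1 : ℝ) ≤ X := by exact_mod_cast hX
  have hX0 : (0 : ℝ) < X := by linarith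
  have hmono : ∀ x y : ℝ, x ≤ y → (X : ℝ) ^ x ≤ (X : ℝ) ^ y := fun x y h =>
    Real.rpow_le_rpow_of_exponent_le hX1 h
  -- the large elements
  set B : Fin k → Finset ℕ := fun i => (A i).filter (fun x : ℕ => (X : ℝ) ^ (1 / 2 : ℝ) ≤ (x : ℝ)) with hB
  have hAX : ∀ i, ((A i).card : ℝ) ≤ X := by
    intro i
    have h3 : A i ⊆ Icc 1 X := fun x hx => mem_Icc.2 (hA i x hx)
    have h4 := card_le_card h3
    rw [Nat.card_Icc] at h4
    exact_mod_cast (by omega : (A i).card ≤ X)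
  have hAlow : ∀ i, (X : ℝ) ^ (1 - δ') ≤ (A i).card := by
    intro i
    have h3 : ∏ i, ((A i).card : ℝ) ≤ (A i).card * (X : ℝ) ^ ((k : ℝ) - 1) := by
      rw [← mul_prod_erase univ _ (mem_univ i)]
      apply mul_le_mul_of_nonneg_left _ (Nat.cast_nonneg _)
      calc ∏ i ∈ univ.erase i, ((A i).card : ℝ) ≤ ∏ _i ∈ univ.erase i, (X : ℝ) :=
            prod_le_prod (fun _ _ => Nat.cast_nonneg _) fun i _ => hAX i
        _ = (X : ℝ) ^ ((k : ℝ) - 1) := by
            rw [prod_const, card_erase_of_mem (mem_univ i), card_univ, Fintype.card_fin,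
              ← Real.rpow_natCast]
            congr 1
            have : 1 ≤ k := by have := i.2; omega
            rw [Nat.cast_sub this, Nat.cast_one]
    have h4 := hAc.trans h3
    have h5 : (X : ℝ) ^ ((k : ℝ) - δ') = (X : ℝ) ^ (1 - δ') * (X : ℝ) ^ ((k : ℝ) - 1) := by
      rw [← Real.rpow_add hX0]
      congr 1
      ring
    rw [h5] at h4
    exact le_of_mul_le_mul_right h4 (by positivity)
  have hBlow : ∀ i, 1 / 2 * ((A i).card : ℝ) ≤ (B i).card := by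
    intro i
    have h3 : (((A i).filter (fun x : ℕ => ¬ (X : ℝ) ^ (1 / 2 : ℝ) ≤ (x : ℝ))).card : ℝ) ≤
        (X : ℝ) ^ (1 / 2 : ℝ) := by
      have h4 : (A i).filter (fun x : ℕ => ¬ (X : ℝ) ^ (1 / 2 : ℝ) ≤ (x : ℝ)) ⊆
          Icc 1 ⌊(X : ℝ) ^ (1 / 2 : ℝ)⌋₊ := by
        intro x hx
        rw [mem_filter, not_le] at hx
        exact mem_Icc.2 ⟨(hA i x hx.1).1, Nat.le_floor hx.2.le⟩
      have h5 := card_le_card h4
      rw [Nat.card_Icc, Nat.add_sub_cancel] at h5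
      calc (((A i).filter (fun x : ℕ => ¬ (X : ℝ) ^ (1 / 2 : ℝ) ≤ (x : ℝ))).card : ℝ) ≤
            (⌊(X : ℝ) ^ (1 / 2 : ℝ)⌋₊ : ℝ) := by exact_mod_cast h5
        _ ≤ _ := Nat.floor_le (by positivity)
    have h6 : ((B i).card : ℝ) +
        ((A i).filter (fun x : ℕ => ¬ (X : ℝ) ^ (1 / 2 : ℝ) ≤ (x : ℝ))).card = (A i).card := by
      exact_mod_cast card_filter_add_card_filter_not (s := A i)
        (fun x : ℕ => (X : ℝ) ^ (1 / 2 : ℝ) ≤ (x : ℝ))
    have h7 : 2 * (X : ℝ) ^ (1 / 2 : ℝ) ≤ (X : ℝ) ^ (1 - δ') := by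
      calc 2 * (X : ℝ) ^ (1 / 2 : ℝ) ≤ (X : ℝ) ^ (1 / 4 : ℝ) * (X : ℝ) ^ (1 / 2 : ℝ) :=
            mul_le_mul_of_nonneg_right hX4 (by positivity)
        _ = (X : ℝ) ^ (3 / 4 : ℝ) := by
            rw [← Real.rpow_add hX0]
            norm_num
        _ ≤ _ := hmono _ _ (by linarith)
    have h8 := hAlow i
    linarith
  set E : Finset (Fin k → ℕ) := Fintype.piFinset B with hE
  have hEc : (E.card : ℝ) = ∏ i, ((B i).card : ℝ) := by
    rw [hE, Fintype.card_piFinset]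
    push_cast
    rfl
  have hEA : (1 / 2) ^ k * ∏ i, ((A i).card : ℝ) ≤ E.card := by
    rw [hEc]
    calc (1 / 2 : ℝ) ^ k * ∏ i, ((A i).card : ℝ) = ∏ i, (1 / 2 * ((A i).card : ℝ)) := by
          rw [prod_mul_distrib, prod_const, card_univ, Fintype.card_fin]
      _ ≤ _ := prod_le_prod (fun _ _ => by positivity) fun i _ => hBlow i
  have hP0 : 0 ≤ ∏ i, ((A i).card : ℝ) := prod_nonneg fun _ _ => Nat.cast_nonneg _
  have hhalf : ∀ y : ℝ, 0 ≤ y → (2 : ℝ) ^ k ≤ (X : ℝ) ^ y → (X : ℝ) ^ (-y) ≤ (1 / 2) ^ k := by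
    intro y hy hy2
    rw [Real.rpow_neg hX0.le, one_div, inv_pow]
    exact inv_anti₀ (by positivity) hy2
  obtain ⟨S, hSE, hSc, hSp⟩ := hF k (fun t => {t}) (fun t a => a t ∈ B t) (fun _ _ _ => 0)
    (by
      intro t j hsub
      have h3 := card_le_card hsub
      rw [card_singleton] at h3
      have := h2 j
      omega)
    (by
      intro t a b hab
      have h3 : a t = b t := hab t (by simp)
      simp only [h3])
    (by
      intro t j a b _
      rfl)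
    E
    (by
      intro a
      rw [hE, Fintype.mem_piFinset, Pool.Agent.V5helper26.ML.mem_V]
      constructor
      · intro h3
        exact ⟨fun i => hA i _ (mem_filter.1 (h3 i)).1, h3⟩
      · exact fun h3 => h3.2)
    (by
      refine le_trans ?_ hEA
      calc (X : ℝ) ^ ((k : ℝ) - δ) ≤ (X : ℝ) ^ (-(δ / 2)) * (X : ℝ) ^ ((k : ℝ) - δ') := by
            rw [← Real.rpow_add hX0]
            apply hmono
            linarith
        _ ≤ (1 / 2) ^ k * ∏ i, ((A i).card : ℝ) :=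
            mul_le_mul (hhalf _ (by positivity) hXδ) hAc (by positivity) (by positivity))
    (by
      intro a ha j
      rw [sum_const_zero, add_zero]
      rw [hE, Fintype.mem_piFinset] at ha
      have h3 : ∀ i, (X : ℝ) ^ (1 / 2 : ℝ) ≤ (a i : ℝ) := fun i => (mem_filter.1 (ha i)).2
      have h4 : (X : ℝ) ≤ ∏ i ∈ I j, (a i : ℝ) := by
        calc (X : ℝ) = ((X : ℝ) ^ (1 / 2 : ℝ)) ^ 2 := by
              rw [← Real.rpow_natCast, ← Real.rpow_mul hX0.le]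
              norm_num
          _ ≤ ((X : ℝ) ^ (1 / 2 : ℝ)) ^ (I j).card :=
              pow_le_pow_right₀ (Real.one_le_rpow hX1 (by norm_num)) (h2 j)
          _ = ∏ _i ∈ I j, (X : ℝ) ^ (1 / 2 : ℝ) := by rw [prod_const]
          _ ≤ _ := prod_le_prod (fun _ _ => by positivity) fun i _ => h3 i
      have h5 : 1 ≤ α j * (X : ℝ) ^ (1 / 2 : ℝ) := by
        have h6 := mul_le_mul_of_nonneg_left (hS j) (hα j).1.le
        rwa [mul_one_div_cancel (hα j).1.ne'] at h6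
      calc (X : ℝ) ^ (1 / 2 : ℝ) ≤ (α j * (X : ℝ) ^ (1 / 2 : ℝ)) * (X : ℝ) ^ (1 / 2 : ℝ) :=
            le_mul_of_one_le_left (by positivity) h5
        _ = α j * X := by
            rw [mul_assoc, ← Real.rpow_add hX0]
            norm_num
        _ ≤ _ := mul_le_mul_of_nonneg_left h4 (hα j).1.le)
  refine ⟨S, ?_, ?_, ?_⟩
  · intro a ha i
    have h3 := hSE ha
    rw [hE, Fintype.mem_piFinset] at h3
    exact (mem_filter.1 (h3 i)).1
  · refine le_trans ?_ hSc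
    calc (∏ i, ((A i).card : ℝ)) * (X : ℝ) ^ (-ρ) =
          ((X : ℝ) ^ (-(ρ / 2)) * ∏ i, ((A i).card : ℝ)) * (X : ℝ) ^ (-(ρ / 2)) := by
          rw [show (-ρ : ℝ) = -(ρ / 2) + -(ρ / 2) by ring, Real.rpow_add hX0]
          ring
      _ ≤ ((1 / 2) ^ k * ∏ i, ((A i).card : ℝ)) * (X : ℝ) ^ (-(ρ / 2)) := by
          apply mul_le_mul_of_nonneg_right _ (by positivity)
          exact mul_le_mul_of_nonneg_right (hhalf _ (by positivity) hXρ) hP0
      _ ≤ _ := mul_le_mul_of_nonneg_right hEA (by positivity)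
  · intro a ha j q hq
    have h3 := hSp a ha j q hq
    rw [sum_const_zero, add_zero] at h3
    exact h3

/-- The main theorem. -/
theorem result (k r : ℕ) (hr : 1 ≤ r) (I : Fin r → Finset (Fin k)) (hI : Function.Injective I)
    (h2 : ∀ j, 2 ≤ (I j).card) :
    (∀ ε ρ : ℝ, 0 < ε → ε ≤ 1 → 0 < ρ → ∃ κ : ℝ, 0 < κ ∧ ∀ᶠ X : ℕ in atTop,
      ∀ α : Fin r → ℝ, (∀ j, Apart ε (I j).card X (α j)) →
      ∀ (N : ℕ) (J : Fin N → Finset (Fin k)) (Rel : Fin N → (Fin k → ℕ) → Prop)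
        (u : Fin r → Fin N → (Fin k → ℕ) → ℝ) (E : Finset (Fin k → ℕ)),
        (∀ t j, ¬ I j ⊆ J t) → (∀ j t, DependsOn (u j t) (J t : Set (Fin k))) →
        GivenBy X J Rel E → (X : ℝ) ^ (k - ε / 2 ^ (k + 2)) ≤ E.card →
        (∀ a ∈ E, ∀ j, (X : ℝ) ^ ε ≤ val (α j) (I j) (u j) a) →
        ∃ S : Finset (Fin k → ℕ), S ⊆ E ∧ E.card * (X : ℝ) ^ (-ρ) ≤ S.card ∧
          ∀ a ∈ S, ∀ j, PrimeFreeAround (val (α j) (I j) (u j) a) (κ * R X)) ∧
    (∀ α : Fin r → ℝ, (∀ j, Irrational (α j) ∧ ¬ Liouville (α j)) →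
      ∀ σ ρ : ℝ, 0 < σ → 0 < ρ → ∃ κ δ : ℝ, 0 < κ ∧ 0 < δ ∧ ∀ᶠ X : ℕ in atTop,
      ∀ (N : ℕ) (J : Fin N → Finset (Fin k)) (Rel : Fin N → (Fin k → ℕ) → Prop)
        (u : Fin r → Fin N → (Fin k → ℕ) → ℝ) (E : Finset (Fin k → ℕ)),
        (∀ t j, ¬ I j ⊆ J t) → (∀ j t, DependsOn (u j t) (J t : Set (Fin k))) →
        GivenBy X J Rel E → (X : ℝ) ^ (k - δ) ≤ E.card →
        (∀ a ∈ E, ∀ j, (X : ℝ) ^ σ ≤ val (α j) (I j) (u j) a) →
        ∃ S : Finset (Fin k → ℕ), S ⊆ E ∧ E.card * (X : ℝ) ^ (-ρ) ≤ S.card ∧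
          ∀ a ∈ S, ∀ j, PrimeFreeAround (val (α j) (I j) (u j) a) (κ * R X)) ∧
    (∀ α : Fin r → ℝ, (∀ j, 0 < α j ∧ Irrational (α j) ∧ ¬ Liouville (α j)) →
      ∀ ρ : ℝ, 0 < ρ → ∃ κ δ : ℝ, 0 < κ ∧ 0 < δ ∧ ∀ᶠ X : ℕ in atTop,
      ∀ A : Fin k → Finset ℕ, (∀ i, ∀ x ∈ A i, 1 ≤ x ∧ x ≤ X) →
        (X : ℝ) ^ (k - δ) ≤ ∏ i, ((A i).card : ℝ) →
        ∃ S : Finset (Fin k → ℕ), (∀ a ∈ S, ∀ i, a i ∈ A i) ∧
          (∏ i, ((A i).card : ℝ)) * (X : ℝ) ^ (-ρ) ≤ S.card ∧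
          ∀ a ∈ S, ∀ j, PrimeFreeAround (α j * ∏ i ∈ I j, (a i : ℝ)) (κ * R X)) ∧
    (∀ ε : ℝ, 0 < ε → ε ≤ 1 → ∀ᶠ X : ℕ in atTop, ∀ (m : ℕ) (α : ℝ), 2 ≤ m →
      (X : ℝ) ^ (2 * ε - m) ≤ |α| → |α| ≤ (X : ℝ) ^ (-(2 * ε)) → Apart ε m X α) := by
  refine ⟨?_, ?_, ?_, ?_⟩
  · intro ε ρ hε hε1 hρ
    obtain ⟨κ, hκ, h⟩ := Pool.Agent.V5helper26.ML.joint hr I hI h2 ε ρ hε hε1 hρ
    refine ⟨κ, hκ, ?_⟩
    filter_upwards [h] with X hX
    intro α hα N J Rel u E hJ hu hE hEc hsz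
    exact hX α hα N J Rel (fun t j => u j t) hJ hE.1 (fun t j => hu j t) E
      (fun a => by rw [Pool.Agent.V5helper26.ML.mem_V]; exact hE.2 a) hEc hsz
  · intro α hα σ ρ hσ hρ
    obtain ⟨κ, δ, hκ, hδ, h⟩ := Pool.Agent.V5helper26.ML.fixed hr I hI h2 α hα σ ρ hσ hρ
    refine ⟨κ, δ, hκ, hδ, ?_⟩
    filter_upwards [h] with X hX
    intro N J Rel u E hJ hu hE hEc hsz
    exact hX N J Rel (fun t j => u j t) hJ hE.1 (fun t j => hu j t) E
      (fun a => by rw [Pool.Agent.V5helper26.ML.mem_V]; exact hE.2 a) hEc hsz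
  · intro α hα ρ hρ
    exact product_sets hr I hI h2 α hα ρ hρ
  · exact fun ε hε hε1 => small_apart ε hε hε1

end Pool.Agent.Results.MP_45ff98_nt.ProductsOverSubsets
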